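import Pool.Agent.Helper64.FL.StH

set_option autoImplicit false

namespace Pool.Agent.Helper64.FL

open Pool.Agent.Helper64.CT Pool.Agent.Helper64.DT
open Pool.Agent.Helper64.HG (Ovl Model Circ IC HellyCircle ChordModel)

theorem arc_walk {V : Type} {G : SimpleGraph V} {S : Set V} : ∀ (l : List V), IPt G l →
    (∀ u ∈ l, u ∈ S) → ∀ u ∈ l.head?, ∀ w ∈ l.getLast?, Cn G S u w := by
  intro l
  induction l with
  | nil => intro _ _ u hu; simp at hu
  | cons a l ih =>
    intro hip hS u hu w hw
    have hau : a = u := by simpa using hu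
    subst hau
    cases l with
    | nil =>
      have haw : a = w := by simpa using hw
      subst haw
      exact ⟨hS a (by simp), Relation.ReflTransGen.refl⟩
    | cons b l =>
      have hab : G.Adj a b := hip.2.1 b rfl
      have hw' : w ∈ (b :: l).getLast? := by
        rw [List.getLast?_cons_cons] at hw
        exact hw
      have h1 := ih hip.2.2.2 (fun v hv => hS v (List.mem_cons_of_mem _ hv)) b rfl w hw'
      refine ⟨hS a (by simp), Relation.ReflTransGen.head ⟨hab, h1.1⟩ h1.2⟩

theorem st_ARC (hCNB : ST_CNB) (_hPTB : ST_PTB) : ST_ARC := by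
  intro V G x n P a b hA
  refine ⟨?_, ?_⟩
  · intro c d hac hcd hdb
    exact ⟨hcd, fun i h1 h2 => hA.xn i (hac.trans h1) (h2.trans hdb),
      fun i j h1 h2 h3 => hA.inj i j (hac.trans h1) h2 (h3.trans hdb),
      fun i h1 h2 => hA.ne i (hac.trans h1) (h2.trans_le hdb),
      fun i h1 h2 => hA.ip i (hac.trans h1) (h2.trans_le hdb),
      fun i h1 h2 => hA.far i (hac.trans h1) (h2.trans_le hdb),
      fun i h1 h2 => hA.fst i (hac.trans h1) (h2.trans_le hdb),
      fun i h1 h2 => hA.lst i (hac.trans h1) (h2.trans_le hdb),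
      fun i j h1 h2 h3 h4 => hA.cln i j (hac.trans h1) (h2.trans_le hdb) (hac.trans h3)
        (h4.trans hdb),
      fun i j h1 h2 h3 => hA.sep i j (hac.trans h1) h2 (h3.trans_le hdb)⟩
  · intro w hn hP
    obtain ⟨hsym, htr, -, hadj, hcomp, -, -⟩ := hCNB V G
    have hself : ∀ i, a ≤ i → i ≤ b → Cn G (Far G w) (n i) (n i) := fun i h1 h2 =>
      ⟨hn i h1 h2, Relation.ReflTransGen.refl⟩
    have hstep : ∀ i, a ≤ i → i < b → Cn G (Far G w) (n i) (n (i + 1)) := by
      intro i h1 h2
      have hne := hA.ne i h1 h2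
      obtain ⟨u, hu⟩ : ∃ u, (P i).head? = some u := by
        cases hh : (P i).head? with
        | none => exact absurd (List.head?_eq_none_iff.1 hh) hne
        | some u => exact ⟨u, rfl⟩
      obtain ⟨v, hv⟩ : ∃ v, (P i).getLast? = some v := by
        cases hh : (P i).getLast? with
        | none => exact absurd (List.getLast?_eq_none_iff.1 hh) hne
        | some v => exact ⟨v, rfl⟩
      have hum : u ∈ P i := List.mem_of_head? hu
      have hvm : v ∈ P i := List.mem_of_getLast? hv
      have h3 : Cn G (Far G w) (n i) u :=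
        hadj _ _ _ (hn i h1 h2.le) (hP i h1 h2 u hum) ((hA.fst i h1 h2 u hum).2 hu)
      have h4 : Cn G (Far G w) u v :=
        arc_walk (P i) (hA.ip i h1 h2) (hP i h1 h2) u hu v hv
      have h5 : Cn G (Far G w) v (n (i + 1)) :=
        hadj _ _ _ (hP i h1 h2 v hvm) (hn (i + 1) (by omega) (by omega))
          ((hA.lst i h1 h2 v hvm).2 hv).symm
      exact htr _ _ _ _ h3 (htr _ _ _ _ h4 h5)
    have hup : ∀ d i, a ≤ i → i + d ≤ b → Cn G (Far G w) (n i) (n (i + d)) := by
      intro d
      induction d with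
      | zero => intro i h1 h2; exact hself i h1 h2
      | succ d ih =>
        intro i h1 h2
        exact htr _ _ _ _ (ih i h1 (by omega)) (hstep (i + d) (by omega) (by omega))
    intro i j h1 h2 h3 h4
    rw [hcomp]
    rcases le_total i j with hij | hij
    · obtain ⟨d, rfl⟩ := Nat.exists_eq_add_of_le hij
      exact hup d i h1 h4
    · obtain ⟨d, rfl⟩ := Nat.exists_eq_add_of_le hij
      exact (hsym _ _ _ (hup d j h3 h2)).2

end Pool.Agent.Helper64.FL
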