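import Pool.Agent.Helper64.FL.StC

/-! `ST_CAB`: the two arms are not connected outside the neighbourhood of `z`. -/

set_option autoImplicit false

namespace Pool.Agent.Helper64.FL

open Pool.Agent.Helper64.CT Pool.Agent.Helper64.DT

theorem st_CAB (hQCA : ST_QCA) (hSP3 : ST_SP3) (hCUT : ST_CUT) (hCNB : ST_CNB) (_hPTB : ST_PTB) :
    ST_CAB := by
  intro V G S hN x y z a la a' b lb b' m m' hxy hxz hyz hT hC
  have hCn : Cn G (Far G z) a b := ((hCNB V G).2.2.2.2.1 z a b).1 hC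
  have haA : a ∈ PV a la a' := Or.inl rfl
  have hbB : b ∈ PV b lb b' := Or.inl rfl
  obtain ⟨q, M, q', hp, hu, ⟨u1, hu1, hu1S, hu1q⟩, ⟨u2, hu2, hu2S, hu2q⟩, hM, hqq⟩ :=
    hSP3 V G (Far G z) (PV a la a') (PV b lb b') a b hCn haA hbB hT.AB
  have key : ∀ (c : V) (l : List V) (c' p : V), Pth G c l c' → (∃ u ∈ PV c l c', G.Adj u p) →
      ∃ l1 f l2, OnP G (PV c l c') (fun v => G.Adj v p) c l1 f l2 c' := by
    intro c l c' p hpth ⟨u, hu, hup⟩
    obtain ⟨l1, f, l2, h1, -⟩ := hCUT V G (PV c l c') (fun v => G.Adj v p) c c' l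
      ⟨Or.inl rfl, Or.inr (Or.inr rfl), fun u hu => Or.inr (Or.inl hu), hpth⟩
      (by
        rcases hu with h | h | h
        · left; rw [← h]; exact hup
        · right; right; exact ⟨u, h, hup⟩
        · right; left; rw [← h]; exact hup)
    exact ⟨l1, f, l2, h1⟩
  obtain ⟨l1, aj, l2, hA⟩ := key a la a' q hT.A.pth ⟨u1, hu1, hu1q⟩
  obtain ⟨l3, bj, l4, hB⟩ := key b lb b' q' hT.B.pth ⟨u2, hu2, hu2q⟩
  refine hQCA V G S hN x y z a l1 aj l2 a' b l3 bj l4 b' m m' la lb hxy hxz hyz hT q M q' hp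
    (fun u hu' => hu u hu') ?_ ?_ hA hB
  · intro u huM v hv
    rcases hv with h | h
    · exact hM u huM v (hT.Az h) (Or.inl h)
    · exact hM u huM v (hT.Bz h) (Or.inr h)
  · intro hne
    exact ⟨fun v hv => (hqq hne v (hT.Bz hv)).1 hv, fun v hv => (hqq hne v (hT.Az hv)).2 hv⟩

end Pool.Agent.Helper64.FL
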