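import Pool.Agent.Helper64.FL.StG

set_option autoImplicit false

namespace Pool.Agent.Helper64.FL

open Pool.Agent.Helper64.CT Pool.Agent.Helper64.DT
open Pool.Agent.Helper64.HG (Ovl Model Circ IC HellyCircle ChordModel)

theorem ci0_mono {V : Type} {G : SimpleGraph V} {S T : Set V} (h : S ⊆ T) {x y : V}
    (hc : Cn G S x y) : Cn G T x y := by
  obtain ⟨h1, h2⟩ := hc
  refine ⟨h h1, ?_⟩
  clear h1
  induction h2 with
  | refl => exact Relation.ReflTransGen.refl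
  | tail _ hr ih => exact ih.tail ⟨hr.1, h hr.2⟩

theorem ci0_sub {V : Type} {G : SimpleGraph V} {o c : V} (h : G.Adj o c) :
    Set.univ ∩ Far G c ⊆ {u | u ≠ o} ∩ Far G c := by
  intro u hu
  refine ⟨?_, hu.2⟩
  intro huo
  have h2 := hu.2.2
  rw [huo] at h2
  exact h2 h.symm

theorem st_CI0 (_hCIB : ST_CIB) (hNCV : ST_NCV) : ST_CI0 := by
  intro V G hR v a b c hv o ho hadj
  obtain ⟨ha, hb, hc⟩ := hadj
  refine hNCV V G {u | u ≠ o} v a b c ⟨hv.va, hv.vb, hv.vc, fun h => ho h.symm, ?_, ?_, ?_⟩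
    (hR.naj o)
  · exact ci0_mono (ci0_sub hc) hv.ab
  · exact ci0_mono (ci0_sub ha) hv.bc
  · exact ci0_mono (ci0_sub hb) hv.ac

end Pool.Agent.Helper64.FL
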