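import Pool.Agent.Helper64.FL.StC

/-! `ST_CQ2`: cliques with at most two elements. -/

set_option autoImplicit false

namespace Pool.Agent.Helper64.FL

open Pool.Agent.Helper64.CT Pool.Agent.Helper64.DT

theorem st_CQ2 : ST_CQ2 := by
  classical
  intro V G Q _ hC hM hB
  unfold Big at hB
  push Not at hB
  obtain ⟨x, y, hxy⟩ := hB
  have hQ : ∀ z ∈ Q, z = x ∨ z = y := by
    intro z hz
    by_cases h : z = x
    · exact Or.inl h
    · exact Or.inr (hxy z hz h)
  choose t ht1 ht2 using hC
  refine ⟨fun v => if v = x then 0 else 1, fun u => if G.Adj x u then !(t y u) else t x u, t, ?_, ?_⟩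
  · intro u hu v hv h
    simp only at h
    rcases hQ u hu with h1 | h1 <;> rcases hQ v hv with h2 | h2
    · rw [h1, h2]
    · by_cases hvx : v = x
      · rw [h1, hvx]
      · rw [if_pos h1, if_neg hvx] at h
        omega
    · by_cases hux : u = x
      · rw [h2, hux]
      · rw [if_neg hux, if_pos h2] at h
        omega
    · rw [h1, h2]
  · intro p hp
    refine ⟨⟨ht1 p, ht2 p⟩, ?_⟩
    intro q hq hqp u hqu huQ
    simp only
    rcases hQ p hp with h1 | h1
    · -- p = x, q = y
      have h2 : q = y := (hQ q hq).resolve_left (fun h => hqp (h.trans h1.symm))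
      have hqx : q ≠ x := fun h => hqp (h.trans h1.symm)
      have h3 : ¬ G.Adj x u := by
        intro hxu
        apply huQ
        apply hM.2
        intro w hw _
        rcases hQ w hw with h4 | h4
        · rw [h4]; exact hxu.symm
        · rw [h4, ← h2]; exact hqu.symm
      simp [h1, h3, hqx]
    · by_cases hpx : p = x
      · have hqx : q ≠ x := fun h => hqp (h.trans hpx.symm)
        have h2 : q = y := (hQ q hq).resolve_left hqx
        exact absurd (h2.trans h1.symm) hqp
      · have h2 : q = x := (hQ q hq).resolve_right (fun h => hqp (h.trans h1.symm))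
        have hyx : y ≠ x := fun h => hpx (h1.trans h)
        rw [h2] at hqu
        simp [h1, h2, hqu, hyx]

end Pool.Agent.Helper64.FL
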