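import Pool.Agent.Helper64.FL.StG

set_option autoImplicit false

namespace Pool.Agent.Helper64.FL

open Pool.Agent.Helper64.CT Pool.Agent.Helper64.DT
open Pool.Agent.Helper64.HG (Ovl Model Circ IC HellyCircle ChordModel)

/-- some set of the family splits the pair -/
def eq2_S {V : Type} (P : Set (Set V)) (u v : V) : Prop :=
  ∃ M ∈ P, (u ∈ M ∧ v ∉ M) ∨ (v ∈ M ∧ u ∉ M)

theorem eq2_symm {V : Type} {P : Set (Set V)} {u v : V} (h : eq2_S P u v) : eq2_S P v u := by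
  obtain ⟨M, hM, h⟩ := h
  exact ⟨M, hM, h.symm⟩

theorem eq2_tri {V : Type} {P : Set (Set V)} {u v : V} (w : V) (h : eq2_S P u v) :
    eq2_S P u w ∨ eq2_S P v w := by
  obtain ⟨M, hM, h⟩ := h
  by_cases hw : w ∈ M
  · rcases h with h | h
    · exact Or.inr ⟨M, hM, Or.inr ⟨hw, h.2⟩⟩
    · exact Or.inl ⟨M, hM, Or.inr ⟨hw, h.2⟩⟩
  · rcases h with h | h
    · exact Or.inl ⟨M, hM, Or.inl ⟨h.1, hw⟩⟩
    · exact Or.inr ⟨M, hM, Or.inl ⟨h.1, hw⟩⟩

theorem st_EQ2 : ST_EQ2 := by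
  intro V A P Q hP hQ
  obtain ⟨u, hu, v, hv, M, hM, huM, hvM⟩ := hP
  obtain ⟨u', hu', v', hv', N, hN, huN, hvN⟩ := hQ
  have sP : eq2_S P u v := ⟨M, hM, Or.inl ⟨huM, hvM⟩⟩
  have sQ : eq2_S Q u' v' := ⟨N, hN, Or.inl ⟨huN, hvN⟩⟩
  have key : ∃ s ∈ A, ∃ t ∈ A, eq2_S P s t ∧ eq2_S Q s t := by
    by_contra hcon
    push Not at hcon
    have nQ : ¬ eq2_S Q u v := hcon u hu v hv sP
    have nP : ¬ eq2_S P u' v' := fun h => hcon u' hu' v' hv' h sQ
    have step : ∀ w ∈ A, eq2_S P w u' → False := by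
      intro w hw h1
      have h2 : eq2_S P w v' := by
        rcases eq2_tri v' (eq2_symm h1) with h | h
        · exact absurd h nP
        · exact h
      rcases eq2_tri w sQ with h | h
      · exact hcon w hw u' hu' h1 (eq2_symm h)
      · exact hcon w hw v' hv' h2 (eq2_symm h)
    rcases eq2_tri u' sP with h | h
    · exact step u hu h
    · exact step v hv h
  obtain ⟨s, hs, t, ht, ⟨M', hM', h | h⟩, hQ'⟩ := key
  · exact ⟨s, hs, t, ht, ⟨M', hM', h⟩, hQ'⟩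
  · exact ⟨t, ht, s, hs, ⟨M', hM', h⟩, eq2_symm hQ'⟩

end Pool.Agent.Helper64.FL
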