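import Pool.Agent.Helper64.FL.StC

/-! `ST_FRY`: the first ray reached from an attachment. -/

set_option autoImplicit false

namespace Pool.Agent.Helper64.FL

open Pool.Agent.Helper64.CT Pool.Agent.Helper64.DT

theorem st_FRY (hSPN : ST_SPN) (hRAY : ST_RAY) (hCNB : ST_CNB) (_hPTB : ST_PTB) : ST_FRY := by
  intro V G Q hD hM y v m q hy hm hmQ hq hqA
  obtain ⟨h1, h2, h3, h4, h5, h6⟩ := hRAY V G Q hD hM
  have cn := hCNB V G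
  obtain ⟨hym, w0, hw0, hmw0⟩ := hm
  obtain ⟨hyq, u0, hu0, hqu0⟩ := hqA
  set S : Set V := {w | w = m ∨ Comp G y v w} with hS
  set B : Set V := {u | Comp G y v u ∧ ∃ a ∈ Q, a ≠ y ∧ G.Adj a u} with hB
  have hKS : KC G y v ⊆ S := fun w hw => Or.inr hw
  have c1 : Cn G S w0 u0 :=
    cn.2.2.1 _ _ _ _ hKS (cn.2.1 _ _ _ _ (cn.1 _ _ _ (cn.2.2.2.2.2.1 y v w0 hw0)).2
      (cn.2.2.2.2.2.1 y v u0 hu0))
  have c2 : Cn G S m u0 := cn.2.1 _ _ _ _ (cn.2.2.2.1 S m w0 (Or.inl rfl) (Or.inr hw0) hmw0) c1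
  obtain ⟨m', M, z, hm', -, hz, -, hp, hMM, -⟩ := hSPN V G S {m} B
    ⟨m, rfl, u0, ⟨hu0, q, hq, hyq.ne.symm, hqu0⟩, c2⟩
  have hmm : m' = m := hm'
  subst hmm
  obtain ⟨hz1, a, ha, hay, haz⟩ := hz
  have hzQ : z ∉ Q := h3 y hy z hz1.right
  have hraz : RayQ G Q a z := ⟨ha, haz, hzQ⟩
  refine ⟨a, z, ⟨hay.symm, ⟨hy, hym, hmQ⟩, hraz, ?_⟩, hz1⟩
  apply cn.2.2.2.2.2.2 _ _ _ _ hp
  refine ⟨⟨hmQ, ?_⟩, ⟨hzQ, ?_⟩, ?_⟩
  · intro q' hq' e1 _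
    exact (h6 y hy m' hym hmQ q' hq' e1).2
  · intro q' hq' _ e2
    exact (h1 a z q' hraz hq' e2).1.2
  · intro u hu
    obtain ⟨g1, g2, g3⟩ := hMM u hu
    have hcu : Comp G y v u := g1.resolve_left g2
    refine ⟨h3 y hy u hcu.right, ?_⟩
    intro q' hq' e1 _ hadj
    exact g3 ⟨hcu, q', hq', e1, hadj⟩

end Pool.Agent.Helper64.FL
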