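import Pool.Agent.Helper64.FL.StC

/-! `ST_LM3`: sides of two connections at the same vertex. -/

set_option autoImplicit false

namespace Pool.Agent.Helper64.FL

open Pool.Agent.Helper64.CT Pool.Agent.Helper64.DT

theorem st_LM3 (hRAY : ST_RAY) : ST_LM3 := by
  intro V G Q σ n θ f hL y a b m m' u u' hD hM hba hbb
  obtain ⟨h1, h2, h3, h4, h5, h6⟩ := hRAY V G Q hD hM
  have key : ∀ a m u, BE G Q y a m u →
      (phi σ θ f y a u = xor (σ m) (f y) ∧ (θ a = θ y + 1 ∨ (θ a = 0 ∧ θ y + 1 = n))) ∨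
      (phi σ θ f y a u = !(xor (σ m) (f y)) ∧ (θ a + 1 = θ y ∨ (θ y = 0 ∧ θ a + 1 = n))) := by
    intro a m u hb
    obtain ⟨hb', hyQ, haQ, -, -⟩ := h4 y a m u hb
    have hne : θ y ≠ θ a := fun e => hb.1 (hL.inj hyQ haQ e)
    unfold phi
    rcases lt_or_gt_of_ne hne with hlt | hlt
    · have hd : decide (θ a < θ y) = false := decide_eq_false (by omega)
      rcases hL.be y a m u hb hlt with ⟨e1, e2⟩ | ⟨e1, e2, e3⟩
      · left
        refine ⟨?_, Or.inl e1⟩
        rw [hd]
        revert e2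
        cases σ m <;> cases σ u <;> cases f y <;> cases f a <;> simp
      · right
        refine ⟨?_, Or.inr ⟨e1, e2⟩⟩
        rw [hd]
        revert e3
        cases σ m <;> cases σ u <;> cases f y <;> cases f a <;> simp
    · have hd : decide (θ a < θ y) = true := decide_eq_true hlt
      rcases hL.be a y u m hb' hlt with ⟨e1, e2⟩ | ⟨e1, e2, e3⟩
      · right
        refine ⟨?_, Or.inl e1.symm⟩
        rw [hd]
        revert e2
        cases σ m <;> cases σ u <;> cases f y <;> cases f a <;> simp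
      · left
        refine ⟨?_, Or.inr ⟨e1, e2⟩⟩
        rw [hd]
        revert e3
        cases σ m <;> cases σ u <;> cases f y <;> cases f a <;> simp
  have hn3 := hL.n3
  obtain ⟨-, hyQ, haQ, -, -⟩ := h4 y a m u hba
  obtain ⟨-, -, hbQ, -, -⟩ := h4 y b m' u' hbb
  have la := hL.lt a haQ
  have lb := hL.lt b hbQ
  have ly := hL.lt y hyQ
  have ka := key a m u hba
  have kb := key b m' u' hbb
  constructor
  · intro hab
    subst hab
    rcases ka with ⟨e1, e2⟩ | ⟨e1, e2⟩ <;> rcases kb with ⟨e3, e4⟩ | ⟨e3, e4⟩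
    · rw [e1, e3]
      cases σ m <;> cases σ m' <;> cases f y <;> rfl
    · exfalso; omega
    · exfalso; omega
    · rw [e1, e3]
      cases σ m <;> cases σ m' <;> cases f y <;> rfl
  · intro hab
    have hθ : θ a ≠ θ b := fun e => hab (hL.inj haQ hbQ e)
    rcases ka with ⟨e1, e2⟩ | ⟨e1, e2⟩ <;> rcases kb with ⟨e3, e4⟩ | ⟨e3, e4⟩
    · exfalso; omega
    · rw [e1, e3]
      cases σ m <;> cases σ m' <;> cases f y <;> rfl
    · rw [e1, e3]
      cases σ m <;> cases σ m' <;> cases f y <;> rfl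
    · exfalso; omega

end Pool.Agent.Helper64.FL
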