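import Pool.Agent.Helper64.FL.StC

/-! `ST_NCF`: two components with rays at other vertices are equal or conflict. -/

set_option autoImplicit false

namespace Pool.Agent.Helper64.FL

open Pool.Agent.Helper64.CT Pool.Agent.Helper64.DT

theorem st_NCF (hRAY : ST_RAY) (_hCNB : ST_CNB) : ST_NCF := by
  intro V G Q hD hM x y v v' a r b r' hv hv' hy hyx ha hax hay hc hb hbx hby hc'
  obtain ⟨h1, h2, h3, h4, h5, h6⟩ := hRAY V G Q hD hM
  by_cases hcc : Comp G y v v'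
  · exact Or.inl hcc
  right
  obtain ⟨f1, f2⟩ := h1 x v y hv hy hyx
  obtain ⟨f1', f2'⟩ := h1 x v' y hv' hy hyx
  refine ⟨hcc, ⟨v, Comp.refl f1, ⟨x, f2', hv.2.1.symm⟩, b, ?_, ?_⟩, v', Comp.refl f1',
    ⟨x, f2, hv'.2.1.symm⟩, a, ?_, ?_⟩
  · exact (h5 y hy b hb.1 v').2 ⟨hby, r', hb, hc'⟩
  · intro hvb
    exact (h1 x v b hv hb.1 hbx).1.2 hvb.symm
  · exact (h5 y hy a ha.1 v).2 ⟨hay, r, ha, hc⟩
  · intro hva
    exact (h1 x v' a hv' ha.1 hax).1.2 hva.symm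

end Pool.Agent.Helper64.FL
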