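import Pool.Agent.Helper64.FL.StG

set_option autoImplicit false

namespace Pool.Agent.Helper64.FL

open Pool.Agent.Helper64.CT Pool.Agent.Helper64.DT
open Pool.Agent.Helper64.HG (Ovl Model Circ IC HellyCircle ChordModel)

theorem st_PKX (hCNB : ST_CNB) (hSPN : ST_SPN) : ST_PKX := by
  intro V G x y l r hl hr
  obtain ⟨h1, h2, -, -, -, h6, -⟩ := hCNB V G
  have hl' : Cn G (KC G x y) y l := h6 x y l hl
  have hr' : Cn G (KC G x y) y r := h6 x y r hr
  have hlr : Cn G (KC G x y) l r := h2 _ _ _ _ (h1 _ _ _ hl').2 hr'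
  obtain ⟨y', M, z, hyA, -, hzB, -, hP, hM, -⟩ := hSPN V G (KC G x y) {l} {r} ⟨l, rfl, r, rfl, hlr⟩
  have e1 : y' = l := hyA
  have e2 : z = r := hzB
  subst e1 e2
  exact ⟨M, ⟨hl, hr, fun u hu => (hM u hu).1, hP⟩⟩

end Pool.Agent.Helper64.FL
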