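import Pool.Agent.Helper64.FL.StC

/-! `ST_RAY`: rays of a maximal clique. -/

set_option autoImplicit false

namespace Pool.Agent.Helper64.FL

open Pool.Agent.Helper64.CT Pool.Agent.Helper64.DT

theorem st_RAY (hCNB : ST_CNB) : ST_RAY := by
  intro V G Q hD hM
  have cn := hCNB V G
  have h6 : ∀ y ∈ Q, ∀ m, G.Adj y m → m ∉ Q → ∀ q ∈ Q, q ≠ y → m ∈ Far G q :=
    fun y hy m hym hm q hq hqy => MaxC.out hD hM hy hq hqy.symm hm hym
  have h1 : ∀ x u y, RayQ G Q x u → y ∈ Q → y ≠ x → u ∈ Far G y ∧ x ∈ Att G y u := by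
    rintro x u y ⟨hx, hxu, hu⟩ hy hyx
    have h := h6 x hx u hxu hu y hy hyx
    exact ⟨h, hM.1 y hy x hx hyx, u, Comp.refl h, hxu⟩
  have h2 : ∀ x y u, RayQ G Q x u → RayQ G Q y u → x = y := by
    intro x y u hx hy
    by_contra hne
    exact (h1 x u y hx hy.1 (fun e => hne e.symm)).1.2 hy.2.1
  have h3 : ∀ y ∈ Q, ∀ v ∈ Far G y, v ∉ Q := by
    intro y hy v hv hvQ
    exact hv.2 (hM.1 y hy v hvQ (fun e => hv.1 e.symm))
  refine ⟨h1, h2, h3, ?_, ?_, h6⟩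
  · rintro a b u w ⟨hab, ha, hb, hc⟩
    have hZ : ZZ G Q a b = ZZ G Q b a := by
      ext v
      constructor
      · rintro ⟨p1, p2⟩
        exact ⟨p1, fun q hq e1 e2 => p2 q hq e2 e1⟩
      · rintro ⟨p1, p2⟩
        exact ⟨p1, fun q hq e1 e2 => p2 q hq e2 e1⟩
    refine ⟨⟨hab.symm, hb, ha, ?_⟩, ha.1, hb.1, ?_, ?_⟩
    · rw [← hZ]
      exact (cn.1 _ _ _ hc).2
    · intro e
      rw [e] at ha
      exact hab (h2 a b w ha hb)
    · intro y hy hya hyb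
      rw [cn.2.2.2.2.1]
      refine cn.2.2.1 _ _ _ _ ?_ hc
      intro v hv
      exact ⟨fun e => hv.1 (e ▸ hy), hv.2 y hy hya hyb⟩
  · intro y hy q hq v
    constructor
    · rintro ⟨hyq, u, hu, hqu⟩
      exact ⟨hyq.ne.symm, u, ⟨hq, hqu, h3 y hy u hu.right⟩, hu⟩
    · rintro ⟨hqy, u, ⟨_, hqu, _⟩, hu⟩
      exact ⟨hM.1 y hy q hq hqy.symm, u, hu, hqu⟩

end Pool.Agent.Helper64.FL
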