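import Pool.Agent.Helper64.FL.StC

/-! `ST_VWC`: the arc of a violating walk covers the graph. -/

set_option autoImplicit false

namespace Pool.Agent.Helper64.FL

open Pool.Agent.Helper64.CT Pool.Agent.Helper64.DT

theorem vwc_far_symm {V : Type} {G : SimpleGraph V} {x y : V} (h : y ∈ Far G x) : x ∈ Far G y :=
  ⟨fun e => h.1 e.symm, fun e => h.2 e.symm⟩

theorem st_VWC (hARX : ST_ARX) (hF2X : ST_F2X) (hARC : ST_ARC) (hRAY : ST_RAY) (hCNB : ST_CNB) :
    ST_VWC := by
  intro V G Q hR hCI hM h a b r E n hW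
  have hr2 := hW.r2
  have hnat : ∀ i j, i ≤ r → j ≤ r + 1 → j ≠ i → j ≠ i + 1 → n j ∉ Att G h (E i) := by
    intro i j hi hj h1 h2 hmem
    by_cases c1 : i + 3 ≤ j
    · have h3 := (hW.att (j - 1) (by omega)).2
      rw [Nat.sub_add_cancel (by omega)] at h3
      exact hW.dsj i (j - 1) (by omega) (by omega) _ hmem h3
    by_cases c2 : j = i + 2
    · by_cases c3 : j ≤ r
      · exact hW.dsj i j (by omega) c3 _ hmem (hW.att j c3).1
      · have hj' : j = r + 1 := by omega
        rw [hj', hW.atr] at hmem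
        exact hW.rl i (by omega) (by omega) b hW.bQ hmem
    by_cases c4 : j + 2 ≤ i
    · exact hW.dsj j i c4 hi _ (hW.att j (by omega)).1 hmem
    have hji : j + 1 = i := by omega
    by_cases c5 : 1 ≤ j
    · have h3 := (hW.att (j - 1) (by omega)).2
      rw [Nat.sub_add_cancel c5] at h3
      exact hW.dsj (j - 1) i (by omega) hi _ h3 hmem
    · have hj0 : j = 0 := by omega
      rw [hj0, hW.at0] at hmem
      exact hW.rl i (by omega) (by omega) a hW.aQ hmem
  have hinj : ∀ i j, i < j → j ≤ r + 1 → n i ≠ n j := by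
    intro i j hij hj heq
    by_cases c1 : i + 2 ≤ j
    · have h3 := (hW.att i (by omega)).1
      rw [heq] at h3
      exact hnat i j (by omega) hj (by omega) (by omega) h3
    · have hj1 : j = i + 1 := by omega
      by_cases c2 : 1 ≤ i
      · have h3 := (hW.att (i - 1) (by omega)).2
        rw [Nat.sub_add_cancel c2, heq] at h3
        exact hnat (i - 1) j (by omega) hj (by omega) (by omega) h3
      · have hi0 : i = 0 := by omega
        rw [hi0, hW.at0] at heq
        have h4 : j = 1 := by omega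
        rw [h4] at heq
        exact hW.nQ 1 le_rfl (by omega) (heq ▸ hW.aQ)
  obtain ⟨P, hP, hPc⟩ := hARX V G h (fun i => E (i - 1)) n 0 (r + 1) (by omega)
    (by
      intro i _ hi
      simp only [Nat.add_sub_cancel]
      exact hW.att i (by omega))
    (by
      intro i j _ hi _ hj h1 h2
      simp only [Nat.add_sub_cancel]
      exact hnat i j (by omega) hj h1 h2)
    (fun i j _ hij hj => hinj i j hij hj)
    (by
      intro i j hi hij hj
      exact hW.ncm (i - 1) (j - 1) (by omega) (by omega))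
  have hab : G.Adj a b := hM.1 a hW.aQ b hW.bQ hW.ab
  obtain ⟨-, -, -, -, -, hray⟩ := hRAY V G Q hR.df hM
  have hxn : ∀ i, i ≤ r + 1 → G.Adj h (n i) := fun i hi => hP.xn i (Nat.zero_le _) hi
  have hfar : ∀ i, 1 ≤ i → i ≤ r → n i ∈ Far G a ∧ n i ∈ Far G b := by
    intro i h1 h2
    exact ⟨hray h hW.hQ (n i) (hxn i (by omega)) (hW.nQ i h1 h2) a hW.aQ (fun e => hW.ha e.symm),
      hray h hW.hQ (n i) (hxn i (by omega)) (hW.nQ i h1 h2) b hW.bQ (fun e => hW.hb e.symm)⟩
  have hnadj : ∀ i, 1 ≤ i → i ≤ r → ¬ G.Adj a (n i) ∧ ¬ G.Adj b (n i) := fun i h1 h2 =>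
    ⟨(hfar i h1 h2).1.2, (hfar i h1 h2).2.2⟩
  have hPfar : ∀ i, i ≤ r → ∀ u ∈ P i, ∀ j, j ≤ r + 1 → j ≠ i → j ≠ i + 1 → u ∈ Far G (n j) := by
    intro i hi u hu j hj h1 h2
    refine ⟨?_, hP.cln i j (Nat.zero_le _) (by omega) (Nat.zero_le _) hj h1 h2 u hu⟩
    intro e
    have h3 := (hP.far i (Nat.zero_le _) (by omega) u hu).2
    rw [e] at h3
    exact h3 (hxn j hj)
  refine ⟨P, hP, ?_, hab, hnadj, ?_⟩
  · intro v
    by_contra hv
    refine hF2X V G {w | w ≠ v} h n P 0 (r + 1) hP ?_ ?_ ?_ (by omega) ?_ (hR.naj v)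
    · intro w hw e
      exact hv (e ▸ hw)
    · rw [hW.at0, hW.atr]
      exact hab
    · intro i h1 h2
      rw [hW.at0, hW.atr]
      exact hnadj i (by omega) (by omega)
    · rw [Nat.sub_zero]
      exact hW.ev.add_one
  · by_contra hn
    have hne : n 1 ≠ n r := hinj 1 r (by omega) (by omega)
    have h1r : n 1 ∈ Far G (n r) := ⟨hne, fun e => hn e.symm⟩
    have cn := hCNB V G
    apply hCI
    refine ⟨h, a, n 1, n r, ?_, hxn 1 (by omega), hxn r (by omega), ?_, ?_, ?_⟩
    · have := hxn 0 (by omega)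
      rwa [hW.at0] at this
    · -- in `Far (n r)`
      obtain ⟨s1, -⟩ := hARC V G h n P 0 (r + 1) hP
      obtain ⟨-, s2⟩ := hARC V G h n P 0 1 (s1 0 1 le_rfl (by omega) (by omega))
      have := s2 (n r) (by
          intro i _ hi
          by_cases hi0 : i = 0
          · rw [hi0, hW.at0]
            exact vwc_far_symm (hfar r (by omega) le_rfl).1
          · have : i = 1 := by omega
            rw [this]
            exact h1r)
        (by
          intro i _ hi u hu
          exact hPfar i (by omega) u hu r (by omega) (by omega) (by omega))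
        0 1 le_rfl (by omega) (by omega) le_rfl
      rwa [hW.at0] at this
    · -- in `Far a`
      obtain ⟨s1, -⟩ := hARC V G h n P 0 (r + 1) hP
      obtain ⟨-, s2⟩ := hARC V G h n P 1 r (s1 1 r (by omega) (by omega) (by omega))
      exact s2 a (fun i h1 h2 => (hfar i h1 h2).1)
        (by
          intro i h1 h2 u hu
          have := hPfar i (by omega) u hu 0 (by omega) (by omega) (by omega)
          rwa [hW.at0] at this)
        1 r le_rfl (by omega) (by omega) le_rfl
    · -- in `Far (n 1)`
      obtain ⟨s1, -⟩ := hARC V G h n P 0 (r + 1) hP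
      obtain ⟨-, s2⟩ := hARC V G h n P r (r + 1) (s1 r (r + 1) (by omega) (by omega) le_rfl)
      have hb1 : b ∈ Far G (n 1) := vwc_far_symm (hfar 1 le_rfl (by omega)).2
      have ha1 : a ∈ Far G (n 1) := vwc_far_symm (hfar 1 le_rfl (by omega)).1
      have h3 := s2 (n 1) (by
          intro i h1 h2
          by_cases hir : i = r
          · rw [hir]
            exact vwc_far_symm h1r
          · have : i = r + 1 := by omega
            rw [this, hW.atr]
            exact hb1)
        (by
          intro i h1 h2 u hu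
          have hir : i = r := by omega
          rw [hir] at hu
          exact hPfar r le_rfl u hu 1 (by omega) (by omega) (by omega))
        r (r + 1) le_rfl (by omega) (by omega) le_rfl
      rw [hW.atr] at h3
      rw [cn.2.2.2.2.1] at h3 ⊢
      have h4 : Cn G (Far G (n 1)) a b := cn.2.2.2.1 _ _ _ ha1 hb1 hab
      exact cn.2.1 _ _ _ _ h4 (cn.1 _ _ _ h3).2

end Pool.Agent.Helper64.FL
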