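import Pool.Agent.Helper64.FL.StC

/-! `ST_XSB`: sums modulo 2. -/

set_option autoImplicit false

namespace Pool.Agent.Helper64.FL

theorem st_XSB : ST_XSB := by
  have hadd : ∀ (f g : ℕ → Bool) m, xs (fun i => xor (f i) (g i)) m = xor (xs f m) (xs g m) := by
    intro f g m
    induction m with
    | zero => rfl
    | succ m ih =>
      simp only [xs, ih]
      cases xs f m <;> cases xs g m <;> cases f m <;> cases g m <;> rfl
  have hsucc : ∀ (f : ℕ → Bool) m, xs f (m + 1) = xor (f 0) (xs (fun i => f (i + 1)) m) := by
    intro f m
    induction m with
    | zero => simp [xs]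
    | succ m ih =>
      have e1 : xs f (m + 1 + 1) = xor (xs f (m + 1)) (f (m + 1)) := rfl
      have e2 : xs (fun i => f (i + 1)) (m + 1) = xor (xs (fun i => f (i + 1)) m) (f (m + 1)) := rfl
      rw [e1, e2, ih, Bool.xor_assoc]
  have hcong : ∀ (f g : ℕ → Bool) m, (∀ i, i < m → f i = g i) → xs f m = xs g m := by
    intro f g m
    induction m with
    | zero => intro _; rfl
    | succ m ih =>
      intro h
      simp only [xs]
      rw [ih (fun i hi => h i (by omega)), h m (by omega)]
  intro f g m
  refine ⟨hadd f g m, ?_, hsucc f m, hcong f g m, ?_, ?_⟩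
  · intro hper s
    induction s with
    | zero => rfl
    | succ s ih =>
      rw [← ih]
      have h1 : xs (fun i => f (i + s)) (m + 1) = xor (xs (fun i => f (i + s)) m) (f (m + s)) := rfl
      have h2 := hsucc (fun i => f (i + s)) m
      rw [h1] at h2
      have h3 : f (m + s) = f (0 + s) := by
        rw [Nat.add_comm m s, Nat.zero_add]
        exact hper s
      have h4 : (fun i => f (i + 1 + s)) = fun i => f (i + (s + 1)) := by
        funext i
        congr 1
        omega
      simp only [h4, h3] at h2
      revert h2
      cases xs (fun i => f (i + s)) m <;> cases xs (fun i => f (i + (s + 1))) m <;> cases f (0 + s) <;> simp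
  · induction m with
    | zero => rfl
    | succ m ih => simp only [xs, ih]; rfl
  · induction m with
    | zero => rfl
    | succ m ih =>
      simp only [xs, ih]
      by_cases h : Odd m
      · have h' : ¬ Odd (m + 1) := by
          rw [Nat.odd_add_one]
          exact not_not.2 h
        simp [h, h']
      · have h' : Odd (m + 1) := by
          rw [Nat.odd_add_one]
          exact h
        simp [h, h']

end Pool.Agent.Helper64.FL
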